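import Pool.Agent.helper83.LS.Spec2

set_option autoImplicit false

/-!
# ls:SWP, the order of the two children does not matter
-/

namespace LSH

theorem SWP_nc {e f : Edge} (h : NC e f) : NC f e := fun z h1 h2 => (h z h2 h1).symm

theorem SWP : SWP_stmt := by
  intro s t S d hd
  obtain ⟨h1, h2, h3⟩ := hd
  cases d with
  | leaf x => simp [PT.shape] at h1
  | un x h u => simp [PT.shape] at h1
  | br x h u k v =>
    simp only [PT.shape, BT.br.injEq] at h1
    refine ⟨.br x k v h u, ⟨?_, ?_, ?_⟩, rfl⟩
    · simp only [PT.shape, h1.1, h1.2]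
    · rw [← h2]
      show x ::ₘ (v.pts + u.pts) = x ::ₘ (u.pts + v.pts)
      rw [add_comm]
    · have hp : (PT.edges (.br x h u k v)).Perm (PT.edges (.br x k v h u)) :=
        List.perm_append_comm
      exact (hp.pairwise_iff (fun {_ _} h => SWP_nc h)).1 h3

end LSH
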